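import Pool.Agent.Helper78_Pak.E6
import Pool.Agent.Helper2_Pack.S2

/-!
# E1: the even rows
-/

namespace Pool.Agent.Helper2_Pak.H78

open Pool.Agent.Helper2_Pack (Motion)

theorem sp_even (κ : Kind) {j : ℕ} (h : j % 2 = 0) : κ.sp j = false := by
  cases κ <;> simp [Kind.sp] <;> omega

theorem spc_even (G : Lay) (c : ℕ) {r : ℕ} (h : r % 2 = 0) : G.spc c r = false := by
  unfold Lay.spc
  split_ifs with h1
  · simp [h]
  · apply sp_even
    have : G.N = 2 * G.n + 1 := rfl
    omega

theorem HX_even (t : ℝ) (G : Lay) (c : ℕ) {r : ℕ} (h : r % 2 = 0) :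
    HX t (G.ori c r) = 1 / 2 := by
  have := HX_ori t G c r
  rw [spc_even G c h] at this
  simp only [Bool.false_eq_true, if_false] at this
  linarith

theorem u_of_rot {g : Motion} {k : ℕ} (h : rot g k = 1) : g.u = Complex.I ^ k := by
  have h1 : (Complex.I ^ k) * (-Complex.I) ^ k = 1 := by
    rw [← mul_pow]
    have : Complex.I * -Complex.I = 1 := by
      rw [mul_neg, Complex.I_mul_I, neg_neg]
    rw [this, one_pow]
  unfold rot at h
  have h2 : g.u * ((Complex.I ^ k) * (-Complex.I) ^ k) = Complex.I ^ k := by
    rw [mul_left_comm, h, mul_one]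
  rwa [h1, mul_one] at h2

theorem e1 (hR : R1Stmt) (h5 : R5Stmt) : E1Stmt := by
  intro t G g k L kL hG hS hA
  obtain ⟨h1, h2, h3, h4⟩ := hR t G g k L kL hG hS hA
  have hk : ∀ c r, G.pres c r = true → k c r = G.ori c r := h5 t G g k L kL hG hS hA
  have ht : 0 < t := hS.pos
  have hq : ∀ b, 0 ≤ pq t b := by
    intro b
    unfold pq
    split_ifs
    · positivity
    · exact le_refl 0
  have wid : ∀ c r, r % 2 = 0 → G.pres c r = true →
      lfL t (g c r) (k c r) (r + 1 / 2) + 1 ≤ rtL t (g c r) (k c r) (r + 1 / 2) := by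
    intro c r hr hp
    have := (h4 c r hp).1
    rw [hk c r hp, HX_even t G c hr] at this
    rw [hk c r hp]
    linarith
  have b1 : ∀ r, r % 2 = 0 → ∀ c, G.pres c r = true →
      (c : ℝ) ≤ lfL t (g c r) (k c r) (r + 1 / 2) := by
    intro r hr c
    have hr' : ¬ r % 2 = 1 := by omega
    induction c with
    | zero =>
      intro hp
      have := h2 0 r (by simp [Lay.wallL, hp])
      rw [if_neg hr'] at this
      linarith
    | succ c ih =>
      intro hp
      rcases hpc : G.pres c r with _ | _
      · have := h2 (c + 1) r (by simp [Lay.wallL, hp, hpc])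
        rw [if_neg hr'] at this
        linarith
      · have e1 := ih hpc
        have e2 := wid c r hr hpc
        have e3 := h1 c r hpc hp
        have e4 := hq (penH (k c r) (k (c + 1) r))
        push_cast
        linarith
  have b2 : ∀ r, r % 2 = 0 → ∀ d c, c + d = G.M → G.pres c r = true →
      rtL t (g c r) (k c r) (r + 1 / 2) ≤ c + 1 := by
    intro r hr d
    have hr' : ¬ r % 2 = 1 := by omega
    induction d with
    | zero =>
      intro c hc hp
      have := (pres_lt hp).1
      omega
    | succ d ih =>
      intro c hc hp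
      rcases hpc : G.pres (c + 1) r with _ | _
      · have := h3 c r (wallR_of hp hpc)
        rw [if_neg hr'] at this
        linarith
      · have e1 := ih (c + 1) (by omega) hpc
        have e2 := wid (c + 1) r hr hpc
        have e3 := h1 c r hp hpc
        have e4 := hq (penH (k c r) (k (c + 1) r))
        push_cast at e1
        linarith
  intro c r hp hr
  have c1 := b1 r hr c hp
  have c2 := b2 r hr (G.M - c) c (by have := (pres_lt hp).1; omega) hp
  have c3 := wid c r hr hp
  have hx := HX_even t G c hr
  have hrot : rot (g c r) (k c r) = 1 := by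
    apply (h4 c r hp).2
    rw [hk c r hp, hx, ← hk c r hp]
    linarith
  refine ⟨?_, ?_⟩
  · rw [← hk c r hp]
    exact u_of_rot hrot
  · have hl : lfL t (g c r) (k c r) (r + 1 / 2) = c := by linarith
    unfold lfL at hl
    rw [hrot, hk c r hp, hx] at hl
    simp only [Complex.one_re, Complex.one_im, div_one, zero_div, zero_mul, sub_zero] at hl
    linarith

end Pool.Agent.Helper2_Pak.H78
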