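import Pool.Agent.Helper2_Pak.Stmts

/-!
# E6: the rows
-/

namespace Pool.Agent.Helper2_Pak.H78

open Pool.Agent.Helper2_Pack (Motion)

variable {G : Lay} {c r : ℕ}

theorem dr_wall (h : G.wallL c r = true) : G.dr c r = (0, 0) := by
  cases c with
  | zero => rfl
  | succ c =>
    have h1 : G.pres c r = false := by
      simp only [Lay.wallL, Bool.and_eq_true, Bool.or_eq_true, decide_eq_true_eq,
        Bool.not_eq_true', Nat.add_sub_cancel] at h
      rcases h.2 with h2 | h2
      · omega
      · exact h2
    simp [Lay.dr, h1]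

theorem D_wall (t : ℝ) (h : G.wallL c r = true) : G.D t c r = 0 := by
  simp [Lay.D, dr_wall h]

theorem D_succ (t : ℝ) (h : G.pres c r = true) : G.D t (c + 1) r =
    G.D t c r + (if G.spc c r then t ^ 2 else 0) +
      (if G.pres (c + 1) r && G.pen c r then t ^ 3 else 0) := by
  simp only [Lay.D, Lay.dr, h, if_true]
  push_cast
  split_ifs <;> ring

theorem ori_mod (G : Lay) (c r : ℕ) : G.ori c r % 2 = if G.spc c r then 1 else 0 := by
  unfold Lay.ori
  split_ifs <;> rfl

theorem HX_ori (t : ℝ) (G : Lay) (c r : ℕ) :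
    2 * HX t (G.ori c r) = 1 + (if G.spc c r then t ^ 2 else 0) := by
  unfold HX
  rw [ori_mod]
  rcases G.spc c r with _ | _
  · simp
  · simp only [if_true, Nat.one_ne_zero, if_false]
    unfold hh
    ring

theorem spc_bW (hG : G.OK) (h : G.kd c = .bW) (r : ℕ) : G.spc c r = false := by
  have h0 : G.l c = 0 := hG.blank c (Or.inr (Or.inr h))
  unfold Lay.spc
  rw [h0, h]
  split_ifs
  · simp
  · rfl

theorem pres_lt (h : G.pres c r = true) : c < G.M ∧ r < G.top c := by
  simpa [Lay.pres] using h

theorem pen_eq (hG : G.OK) (h : G.pres (c + 1) r = true) :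
    penH (G.ori c r) (G.ori (c + 1) r) = G.pen c r := by
  have hM := (pres_lt h).1
  have hw := hG.WV c
  have hs := spc_bW hG (c := c)
  unfold Lay.pen Lay.ori penH
  rcases hA : (G.kd c).isW with _ | _ <;> rcases hB : (G.kd (c + 1)).isW with _ | _ <;>
    rcases hC : G.spc c r with _ | _ <;> rcases hE : G.spc (c + 1) r with _ | _ <;>
    simp
  · have h1 := hw hA hB hM
    have h2 := hs h1.1 r
    rw [hC] at h2
    exact absurd h2 (by simp)

theorem wallR_of (h : G.pres c r = true) (h' : G.pres (c + 1) r = false) :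
    G.wallR (c + 1) r = true := by
  simp [Lay.wallR, h, h']

theorem e6 (hR : R1Stmt) : E6Stmt := by
  intro t G g L kL hG hS hA
  obtain ⟨h1, h2, h3, h4⟩ := hR t G g G.ori L kL hG hS hA
  have a1 : ∀ c r, r % 2 = 1 → G.wallL c r = true → -t ^ 3 ≤ xlD t G g c r := by
    intro c r hr hw
    have := h2 c r hw
    rw [if_pos hr] at this
    unfold xlD
    rw [D_wall t hw]
    linarith
  have a2 : ∀ c r, r % 2 = 1 → G.wallR (c + 1) r = true → xrD t G g c r ≤ t ^ 3 := by
    intro c r hr hw
    have := h3 c r hw
    rw [if_pos hr] at this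
    have hp : G.pres c r = true ∧ G.pres (c + 1) r = false := by
      simpa [Lay.wallR] using hw
    unfold xrD
    rw [HX_ori]
    unfold Lay.rw at this
    rw [D_succ t hp.1, hp.2] at this
    simp only [Bool.false_and, Bool.false_eq_true, if_false] at this
    linarith
  have a3 : ∀ c r, r % 2 = 1 → G.pres c r = true → xlD t G g c r ≤ xrD t G g c r := by
    intro c r hr hp
    have := (h4 c r hp).1
    unfold xlD xrD
    linarith
  have a4 : ∀ c r, r % 2 = 1 → G.pres c r = true → G.pres (c + 1) r = true →
      xrD t G g c r ≤ xlD t G g (c + 1) r := by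
    intro c r hr hp hp'
    have := h1 c r hp hp'
    rw [pen_eq hG hp'] at this
    unfold xlD xrD
    rw [HX_ori, D_succ t hp, hp', Bool.true_and]
    unfold pq at this
    push_cast
    linarith
  refine ⟨a1, a2, a3, a4, ?_⟩
  have b1 : ∀ r, r % 2 = 1 → ∀ c, G.pres c r = true → -t ^ 3 ≤ xlD t G g c r := by
    intro r hr c
    induction c with
    | zero =>
      intro hp
      exact a1 0 r hr (by simp [Lay.wallL, hp])
    | succ c ih =>
      intro hp
      rcases hq : G.pres c r with _ | _
      · exact a1 (c + 1) r hr (by simp [Lay.wallL, hp, hq])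
      · exact (ih hq).trans ((a3 c r hr hq).trans (a4 c r hr hq hp))
  have b2 : ∀ r, r % 2 = 1 → ∀ d c, c + d = G.M → G.pres c r = true →
      xrD t G g c r ≤ t ^ 3 := by
    intro r hr d
    induction d with
    | zero =>
      intro c hc hp
      have := (pres_lt hp).1
      omega
    | succ d ih =>
      intro c hc hp
      rcases hq : G.pres (c + 1) r with _ | _
      · exact a2 c r hr (wallR_of hp hq)
      · exact (a4 c r hr hp hq).trans ((a3 (c + 1) r hr hq).trans (ih (c + 1) (by omega) hq))
  intro c r hr hp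
  exact ⟨b1 r hr c hp, b2 r hr (G.M - c) c (by have := (pres_lt hp).1; omega) hp⟩

end Pool.Agent.Helper2_Pak.H78
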